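import Mathlib

/-!
Derangement-to-permutation ratios of finite digraphs are dense in `[0, 1/2]`.
-/

namespace Pool.Agent.Results.MP_864c98_co.DenseInHalf

open Equiv

/-- The number of derangements on the digraph with arc relation `E`. -/
noncomputable def derCount {V : Type} (E : V → V → Prop) : ℕ :=
  Nat.card {σ : Perm V // ∀ v, E v (σ v)}

/-- The number of permutations on the digraph with arc relation `E`. -/
noncomputable def permCount {V : Type} (E : V → V → Prop) : ℕ :=
  Nat.card {σ : Perm V // ∀ v, σ v = v ∨ E v (σ v)}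

/-- The set of all ratios `d(G)/p(G)` over finite nonempty loopless digraphs. -/
def ratioSet : Set ℝ :=
  {x | ∃ (V : Type) (_ : Finite V) (_ : Nonempty V) (E : V → V → Prop),
    (∀ v, ¬ E v v) ∧ x = (derCount E : ℝ) / (permCount E : ℝ)}

section Construction

variable (n k : ℕ) (M : Fin k → Fin k → Prop)

/-- A cyclic arrangement of `n+2` levels of `k` vertices, all consecutive levels completely
joined, except that the arcs from level `0` to level `1` follow `M`. -/
def arc (v w : Fin (n + 2) × Fin k) : Prop :=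
  w.1 = v.1 + 1 ∧ (v.1 = 0 → M v.2 w.2)

variable {n k M}

lemma ne_succ (j : Fin (n + 2)) : j ≠ j + 1 := by
  intro h
  have h1 : (1 : Fin (n + 2)) = 0 := by
    have : j + 0 = j + 1 := by rw [add_zero]; exact h
    exact (add_left_cancel this).symm
  exact absurd h1 (by simp)

lemma arc_loopless (v : Fin (n + 2) × Fin k) : ¬ arc n k M v v := by
  rintro ⟨h, -⟩
  exact ne_succ _ h

/-- moved part -/
def moved (σ : Perm (Fin (n + 2) × Fin k)) (j : Fin (n + 2)) (a : Fin k) : Prop :=
  σ (j, a) ≠ (j, a)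

lemma fst_of_moved {σ : Perm (Fin (n + 2) × Fin k)} (hσ : ∀ v, σ v = v ∨ arc n k M v (σ v))
    {j : Fin (n + 2)} {a : Fin k} (h : moved σ j a) : σ (j, a) = (j + 1, (σ (j, a)).2) := by
  rcases hσ (j, a) with h1 | h1
  · exact absurd h1 h
  · exact Prod.ext h1.1 rfl

lemma moved_succ {σ : Perm (Fin (n + 2) × Fin k)} (hσ : ∀ v, σ v = v ∨ arc n k M v (σ v))
    {j : Fin (n + 2)} {a : Fin k} (h : moved σ j a) : moved σ (j + 1) (σ (j, a)).2 := by
  intro h2
  have h3 := fst_of_moved hσ h
  rw [← h3] at h2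
  have h4 := σ.injective h2
  exact h h4

lemma exists_pre {σ : Perm (Fin (n + 2) × Fin k)} (hσ : ∀ v, σ v = v ∨ arc n k M v (σ v))
    {j : Fin (n + 2)} {b : Fin k} (h : moved σ (j + 1) b) :
    ∃ a, moved σ j a ∧ σ (j, a) = (j + 1, b) := by
  obtain ⟨⟨i, a⟩, hia⟩ := σ.surjective (j + 1, b)
  have hm : moved σ i a := by
    intro h2
    rw [h2] at hia
    apply h
    rw [← hia, h2]
  have h3 := fst_of_moved hσ hm
  rw [hia] at h3
  have h4 : j + 1 = i + 1 := congrArg Prod.fst h3
  have h5 : j = i := add_right_cancel h4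
  subst h5
  exact ⟨a, hm, hia⟩

/-- every permutation on the digraph is locally given by honest permutations of `Fin k`. -/
lemma exists_ext {σ : Perm (Fin (n + 2) × Fin k)} (hσ : ∀ v, σ v = v ∨ arc n k M v (σ v)) :
    ∃ π : Fin (n + 2) → Perm (Fin k), ∀ j a, moved σ j a → σ (j, a) = (j + 1, π j a) := by
  classical
  have key : ∀ j : Fin (n + 2), ∃ π : Perm (Fin k),
      ∀ a, moved σ j a → σ (j, a) = (j + 1, π a) := by
    intro j
    let f : {a // moved σ j a} → {b // moved σ (j + 1) b} :=
      fun a => ⟨(σ (j, a.1)).2, moved_succ hσ a.2⟩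
    have hf : Function.Bijective f := by
      constructor
      · rintro ⟨a, ha⟩ ⟨b, hb⟩ hab
        have h1 : (σ (j, a)).2 = (σ (j, b)).2 := congrArg Subtype.val hab
        have h2 : σ (j, a) = σ (j, b) := by
          rw [fst_of_moved hσ ha, fst_of_moved hσ hb, h1]
        have h3 := σ.injective h2
        exact Subtype.ext (congrArg Prod.snd h3)
      · rintro ⟨b, hb⟩
        obtain ⟨a, ha, hab⟩ := exists_pre hσ hb
        exact ⟨⟨a, ha⟩, Subtype.ext (by simp [f, hab])⟩
    refine ⟨(Equiv.ofBijective f hf).extendSubtype, fun a ha => ?_⟩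
    rw [Equiv.extendSubtype_apply_of_mem _ a ha]
    exact fst_of_moved hσ ha
  choose π hπ using key
  exact ⟨π, hπ⟩

open Classical in
/-- glue local permutations into a permutation of all vertices -/
noncomputable def glue (D : Fin (n + 2) → Fin k → Prop) (π : Fin (n + 2) → Perm (Fin k))
    (h : ∀ j a, D j a ↔ D (j + 1) (π j a)) : Perm (Fin (n + 2) × Fin k) where
  toFun v := if D v.1 v.2 then (v.1 + 1, π v.1 v.2) else v
  invFun v := if D v.1 v.2 then (v.1 - 1, (π (v.1 - 1)).symm v.2) else v
  left_inv := by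
    rintro ⟨j, a⟩
    by_cases ha : D j a
    · have h2 : D (j + 1) (π j a) := (h j a).1 ha
      have h3 : j + 1 - 1 = j := by simp
      simp [ha, h2, h3]
    · simp [ha]
  right_inv := by
    rintro ⟨j, a⟩
    by_cases ha : D j a
    · have h3 : j - 1 + 1 = j := by simp
      have h2 : D (j - 1) ((π (j - 1)).symm a) := by
        rw [h, h3]
        simpa using ha
      simp [ha, h2, h3]
    · simp [ha]

lemma glue_apply_of {D : Fin (n + 2) → Fin k → Prop} {π : Fin (n + 2) → Perm (Fin k)}
    (h : ∀ j a, D j a ↔ D (j + 1) (π j a)) {j : Fin (n + 2)} {a : Fin k} (ha : D j a) :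
    glue D π h (j, a) = (j + 1, π j a) := by
  simp [glue, ha]

lemma glue_apply_of_not {D : Fin (n + 2) → Fin k → Prop} {π : Fin (n + 2) → Perm (Fin k)}
    (h : ∀ j a, D j a ↔ D (j + 1) (π j a)) {j : Fin (n + 2)} {a : Fin k} (ha : ¬ D j a) :
    glue D π h (j, a) = (j, a) := by
  simp [glue, ha]

lemma moved_glue {D : Fin (n + 2) → Fin k → Prop} {π : Fin (n + 2) → Perm (Fin k)}
    (h : ∀ j a, D j a ↔ D (j + 1) (π j a)) {j : Fin (n + 2)} {a : Fin k} :
    moved (glue D π h) j a ↔ D j a := by
  constructor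
  · intro hm
    by_contra ha
    exact hm (glue_apply_of_not h ha)
  · intro ha hm
    rw [glue_apply_of h ha] at hm
    exact ne_succ j (congrArg Prod.fst hm).symm

/-! ### Derangements -/

lemma der_count :
    derCount (arc n k M) = Nat.card {π : Fin (n + 2) → Perm (Fin k) // ∀ a, M a (π 0 a)} := by
  unfold derCount
  symm
  refine Nat.card_congr (Equiv.ofBijective (fun π => ⟨glue (fun _ _ => True) π.1
    (by simp), ?_⟩) ⟨?_, ?_⟩)
  · rintro ⟨j, a⟩
    rw [glue_apply_of _ trivial]
    refine ⟨rfl, ?_⟩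
    rintro rfl
    exact π.2 a
  · rintro ⟨π, hπ⟩ ⟨ρ, hρ⟩ h
    have h1 := congrArg Subtype.val h
    apply Subtype.ext
    funext j
    ext a
    have h2 := DFunLike.congr_fun h1 (j, a)
    simp only at h2
    rw [glue_apply_of _ trivial, glue_apply_of _ trivial] at h2
    exact congrArg (fun v : Fin (n + 2) × Fin k => (v.2 : ℕ)) h2
  · rintro ⟨σ, hσ⟩
    obtain ⟨π, hπ⟩ := exists_ext (M := M) (σ := σ) (fun v => Or.inr (hσ v))
    have hm : ∀ j a, moved σ j a := by
      intro j a h
      have := hσ (j, a)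
      rw [h] at this
      exact arc_loopless _ this
    refine ⟨⟨π, fun a => ?_⟩, ?_⟩
    · have h1 := (hσ (0, a)).2 rfl
      rw [hπ 0 a (hm 0 a)] at h1
      exact h1
    · apply Subtype.ext
      ext1 ⟨j, a⟩
      simp only
      rw [glue_apply_of _ trivial, hπ j a (hm j a)]

lemma der_count_eq {M : Fin k → Fin k → Prop}
    (hM : ∀ π : Perm (Fin k), (∀ a, M a (π a)) ↔ π = 1) :
    derCount (arc n k M) = (k.factorial) ^ (n + 1) := by
  classical
  rw [der_count]
  have e : {π : Fin (n + 2) → Perm (Fin k) // ∀ a, M a (π 0 a)} ≃ (Fin (n + 1) → Perm (Fin k)) :=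
    { toFun := fun π i => π.1 i.succ
      invFun := fun ρ => ⟨Fin.cons 1 ρ, by
        rw [hM]; rfl⟩
      left_inv := by
        rintro ⟨π, hπ⟩
        apply Subtype.ext
        funext j
        refine Fin.cases ?_ (fun i => ?_) j
        · rw [hM] at hπ
          simp [hπ]
        · simp
      right_inv := by
        intro ρ
        funext i
        simp }
  rw [Nat.card_congr e]
  simp [Nat.card_eq_fintype_card, Fintype.card_perm]

/-! ### Configurations with exactly one unmoved vertex on each level -/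

/-- number of vertices moved on level `j` -/
noncomputable def mcard (σ : Perm (Fin (n + 2) × Fin k)) (j : Fin (n + 2)) : ℕ :=
  Nat.card {a // moved σ j a}

lemma mcard_succ {σ : Perm (Fin (n + 2) × Fin k)} (hσ : ∀ v, σ v = v ∨ arc n k M v (σ v))
    (j : Fin (n + 2)) : mcard σ (j + 1) = mcard σ j := by
  obtain ⟨π, hπ⟩ := exists_ext hσ
  unfold mcard
  symm
  refine Nat.card_congr (Equiv.ofBijective (fun a => ⟨π j a.1, ?_⟩) ⟨?_, ?_⟩)
  · have := moved_succ hσ a.2
    rw [hπ j a.1 a.2] at this
    exact this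
  · rintro ⟨a, ha⟩ ⟨b, hb⟩ hab
    exact Subtype.ext ((π j).injective (congrArg Subtype.val hab))
  · rintro ⟨b, hb⟩
    obtain ⟨a, ha, hab⟩ := exists_pre hσ hb
    refine ⟨⟨a, ha⟩, Subtype.ext ?_⟩
    rw [hπ j a ha] at hab
    exact congrArg Prod.snd hab

lemma mcard_eq {σ : Perm (Fin (n + 2) × Fin k)} (hσ : ∀ v, σ v = v ∨ arc n k M v (σ v))
    (j : Fin (n + 2)) : mcard σ j = mcard σ 0 := by
  induction j using Fin.induction with
  | zero => rfl
  | succ i ih => rw [← Fin.coeSucc_eq_succ, mcard_succ hσ, ih]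

/-- For `x y`, the number of permutations of `Fin k` sending `x` to `y` and respecting `M`
elsewhere. -/
noncomputable def minor (M : Fin k → Fin k → Prop) (x y : Fin k) : ℕ :=
  Nat.card {π : Perm (Fin k) // π x = y ∧ ∀ a, a ≠ x → M a (π a)}

lemma card_perm_map (x y : Fin k) : Nat.card {π : Perm (Fin k) // π x = y} = (k - 1).factorial := by
  classical
  have e1 : {π : Perm (Fin k) // π x = y} ≃ {f : Perm (Fin k) // ∀ a, ¬ (a ≠ x) → f a = a} :=
    { toFun := fun π => ⟨π.1.trans (swap y x), by
        intro a ha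
        have : a = x := by simpa using ha
        subst this
        simp [π.2]⟩
      invFun := fun f => ⟨f.1.trans (swap x y), by
        have := f.2 x (by simp)
        simp [this]⟩
      left_inv := by
        rintro ⟨π, hπ⟩
        apply Subtype.ext
        ext a
        simp [Equiv.swap_comm y x]
      right_inv := by
        rintro ⟨π, hπ⟩
        apply Subtype.ext
        ext a
        simp [Equiv.swap_comm y x] }
  rw [Nat.card_congr e1, Nat.card_congr (Equiv.Perm.subtypeEquivSubtypePerm (fun a => a ≠ x)).symm]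
  rw [Nat.card_eq_fintype_card, Fintype.card_perm]
  congr 1
  rw [Fintype.card_subtype_compl]
  simp


/-- data describing a configuration with exactly one unmoved vertex on each level -/
def OneData (n k : ℕ) (M : Fin k → Fin k → Prop) : Type :=
  Σ u : (Fin (n + 2) → Fin k), (j : Fin (n + 2)) →
    {π : Perm (Fin k) // π (u j) = u (j + 1) ∧ (j = 0 → ∀ a, a ≠ u j → M a (π a))}

lemma sum_two (f : Fin k → Fin k → ℕ) :
    ∑ u : Fin (n + 2) → Fin k, f (u 0) (u 1) = k ^ n * ∑ x, ∑ y, f x y := by
  rw [← (Fin.consEquiv (fun _ : Fin (n + 2) => Fin k)).sum_comp, Fintype.sum_prod_type,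
    Finset.mul_sum]
  refine Finset.sum_congr rfl fun x _ => ?_
  have h1 : ∀ w : Fin (n + 1) → Fin k,
      f ((Fin.consEquiv (fun _ : Fin (n + 2) => Fin k)) (x, w) 0)
        ((Fin.consEquiv (fun _ : Fin (n + 2) => Fin k)) (x, w) 1) = f x (w 0) := by
    intro w
    rfl
  simp only [h1]
  rw [← (Fin.consEquiv (fun _ : Fin (n + 1) => Fin k)).sum_comp, Fintype.sum_prod_type,
    Finset.mul_sum]
  refine Finset.sum_congr rfl fun y _ => ?_
  have h2 : ∀ w : Fin n → Fin k,
      f x ((Fin.consEquiv (fun _ : Fin (n + 1) => Fin k)) (y, w) 0) = f x y := by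
    intro w
    rfl
  simp only [h2]
  simp

lemma card_oneData (M : Fin k → Fin k → Prop) :
    Nat.card (OneData n k M) =
      k ^ n * (∑ x, ∑ y, minor M x y) * ((k - 1).factorial) ^ (n + 1) := by
  unfold OneData
  rw [Nat.card_sigma]
  have h1 : ∀ u : Fin (n + 2) → Fin k, Nat.card ((j : Fin (n + 2)) →
      {π : Perm (Fin k) // π (u j) = u (j + 1) ∧ (j = 0 → ∀ a, a ≠ u j → M a (π a))}) =
      minor M (u 0) (u 1) * ((k - 1).factorial) ^ (n + 1) := by
    intro u
    rw [Nat.card_pi, Fin.prod_univ_succ]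
    congr 1
    · unfold minor
      refine Nat.card_congr (Equiv.subtypeEquivRight fun π => ?_)
      simp
    · rw [Finset.prod_congr rfl (g := fun _ => (k - 1).factorial)]
      · simp
      · intro i _
        rw [← card_perm_map (u i.succ) (u (i.succ + 1))]
        refine Nat.card_congr (Equiv.subtypeEquivRight fun π => ?_)
        simp [Fin.succ_ne_zero]
  simp only [h1]
  rw [← Finset.sum_mul, sum_two (fun x y => minor M x y)]

lemma oneData_iff {u : Fin (n + 2) → Fin k} {π : Fin (n + 2) → Perm (Fin k)}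
    (h : ∀ j, π j (u j) = u (j + 1)) (j : Fin (n + 2)) (a : Fin k) :
    a ≠ u j ↔ π j a ≠ u (j + 1) := by
  rw [← h j]
  exact (π j).injective.ne_iff.symm

lemma card_one :
    Nat.card {σ : Perm (Fin (n + 2) × Fin k) //
      (∀ v, σ v = v ∨ arc n k M v (σ v)) ∧ mcard σ 0 + 1 = k} = Nat.card (OneData n k M) := by
  classical
  symm
  refine Nat.card_congr (Equiv.ofBijective (fun t => ⟨glue (fun j a => a ≠ t.1 j)
    (fun j => (t.2 j).1) (oneData_iff (fun j => (t.2 j).2.1)), ?_, ?_⟩) ⟨?_, ?_⟩)
  · rintro ⟨j, a⟩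
    by_cases ha : a ≠ t.1 j
    · right
      rw [glue_apply_of _ ha]
      refine ⟨rfl, ?_⟩
      rintro rfl
      exact (t.2 0).2.2 rfl a ha
    · left
      exact glue_apply_of_not _ ha
  · unfold mcard
    have : Nat.card {a // moved (glue (fun j a => a ≠ t.1 j)
        (fun j => (t.2 j).1) (oneData_iff (fun j => (t.2 j).2.1))) 0 a} =
        Nat.card {a // a ≠ t.1 0} :=
      Nat.card_congr (Equiv.subtypeEquivRight fun a => moved_glue _)
    rw [this, Nat.card_eq_fintype_card, Fintype.card_subtype_compl]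
    have hk : 0 < k := lt_of_le_of_lt (Nat.zero_le _) (t.1 0).isLt
    simp
    omega
  · rintro ⟨u, π⟩ ⟨u', π'⟩ h
    have h1 := congrArg Subtype.val h
    simp only at h1
    have hu : u = u' := by
      funext j
      have h2 := moved_glue (D := fun j a => a ≠ u j) (π := fun j => (π j).1)
        (oneData_iff (fun j => (π j).2.1)) (j := j) (a := u j)
      have h3 := moved_glue (D := fun j a => a ≠ u' j) (π := fun j => (π' j).1)
        (oneData_iff (fun j => (π' j).2.1)) (j := j) (a := u j)
      rw [h1, h3] at h2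
      by_contra hne
      exact (h2.1 hne) rfl
    subst hu
    congr 1
    funext j
    apply Subtype.ext
    ext1 a
    by_cases ha : a = u j
    · subst ha
      rw [(π j).2.1, (π' j).2.1]
    · have h2 := DFunLike.congr_fun h1 (j, a)
      rw [glue_apply_of _ ha, glue_apply_of _ ha] at h2
      exact congrArg Prod.snd h2
  · rintro ⟨σ, hσ, hm⟩
    obtain ⟨π, hπ⟩ := exists_ext hσ
    have hu : ∀ j, ∃ x, ∀ a, moved σ j a ↔ a ≠ x := by
      intro j
      have h1 : mcard σ j + 1 = k := by rw [mcard_eq hσ j]; exact hm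
      unfold mcard at h1
      have h2 : Nat.card {a // ¬ moved σ j a} = 1 := by
        have h3 := Fintype.card_subtype_compl (fun a => moved σ j a)
        rw [Nat.card_eq_fintype_card] at h1
        rw [Nat.card_eq_fintype_card, h3, Fintype.card_fin]
        omega
      rw [Nat.card_eq_one_iff_unique] at h2
      obtain ⟨hs, ⟨x, hx⟩⟩ := h2
      refine ⟨x, fun a => ⟨?_, ?_⟩⟩
      · rintro ha rfl
        exact hx ha
      · intro ha
        by_contra hna
        have := hs.elim ⟨a, hna⟩ ⟨x, hx⟩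
        exact ha (congrArg Subtype.val this)
    choose u hu using hu
    have hpu : ∀ j, π j (u j) = u (j + 1) := by
      intro j
      by_contra hne
      have h1 := (hu (j + 1) _).2 hne
      obtain ⟨a, ha, hab⟩ := exists_pre hσ h1
      rw [hπ j a ha] at hab
      have h2 := (π j).injective (congrArg Prod.snd hab)
      exact (hu j a).1 ha h2
    refine ⟨⟨u, fun j => ⟨π j, hpu j, ?_⟩⟩, ?_⟩
    · rintro rfl a ha
      have h1 := (hu 0 a).2 ha
      rcases hσ (0, a) with h2 | h2
      · exact absurd h2 h1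
      · have h3 := h2.2 rfl
        rw [hπ 0 a h1] at h3
        exact h3
    · apply Subtype.ext
      ext1 ⟨j, a⟩
      simp only
      by_cases ha : a = u j
      · rw [glue_apply_of_not]
        · by_contra hne
          exact (hu j a).1 (fun h => hne h.symm) ha
        · simpa using ha
      · rw [glue_apply_of _ ha, hπ j a ((hu j a).2 ha)]

/-! ### Configurations with at least two unmoved vertices on each level -/

lemma two_unmoved {σ : Perm (Fin (n + 2) × Fin k)} (hσ : ∀ v, σ v = v ∨ arc n k M v (σ v))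
    (hm : mcard σ 0 + 2 ≤ k) (j : Fin (n + 2)) :
    ∃ x y : Fin k, x ≠ y ∧ ¬ moved σ j x ∧ ¬ moved σ j y := by
  classical
  have h1 : mcard σ j + 2 ≤ k := by rw [mcard_eq hσ j]; exact hm
  unfold mcard at h1
  have h2 : 1 < Fintype.card {a // ¬ moved σ j a} := by
    have h3 := Fintype.card_subtype_compl (fun a => moved σ j a)
    rw [Nat.card_eq_fintype_card] at h1
    rw [h3, Fintype.card_fin]
    omega
  obtain ⟨⟨x, hx⟩, ⟨y, hy⟩, hxy⟩ := Fintype.one_lt_card_iff.1 h2
  exact ⟨x, y, fun h => hxy (Subtype.ext h), hx, hy⟩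

lemma exists_data {σ : Perm (Fin (n + 2) × Fin k)} (hσ : ∀ v, σ v = v ∨ arc n k M v (σ v))
    (hm : mcard σ 0 + 2 ≤ k) :
    ∃ (π : Fin (n + 2) → Perm (Fin k)) (x y : Fin (n + 2) → Fin k),
      (∀ j, x j ≠ y j ∧ ¬ moved σ j (x j) ∧ ¬ moved σ j (y j)) ∧
      (∀ j a, moved σ j a → σ (j, a) = (j + 1, π j a)) := by
  obtain ⟨π, hπ⟩ := exists_ext hσ
  choose x y hxy using two_unmoved hσ hm
  exact ⟨π, x, y, hxy, hπ⟩

lemma eq_of_moved_zero {σ σ' : Perm (Fin (n + 2) × Fin k)}
    (hσ : ∀ v, σ v = v ∨ arc n k M v (σ v)) (hσ' : ∀ v, σ' v = v ∨ arc n k M v (σ' v))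
    {ρ : Fin (n + 2) → Perm (Fin k)}
    (h : ∀ j a, moved σ j a → σ (j, a) = (j + 1, ρ j a))
    (h' : ∀ j a, moved σ' j a → σ' (j, a) = (j + 1, ρ j a))
    (h0 : ∀ a, moved σ 0 a ↔ moved σ' 0 a) : σ = σ' := by
  have key : ∀ j a, moved σ j a ↔ moved σ' j a := by
    intro j
    induction j using Fin.induction with
    | zero => exact h0
    | succ i ih =>
      intro a
      rw [← Fin.coeSucc_eq_succ]
      constructor
      · intro ha
        obtain ⟨b, hb, hab⟩ := exists_pre hσ ha
        rw [h _ _ hb] at hab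
        have hb' := (ih b).1 hb
        have h2 := moved_succ hσ' hb'
        rw [h' _ _ hb'] at h2
        have h3 : ρ i.castSucc b = a := congrArg Prod.snd hab
        simp only [h3] at h2
        exact h2
      · intro ha
        obtain ⟨b, hb, hab⟩ := exists_pre hσ' ha
        rw [h' _ _ hb] at hab
        have hb' := (ih b).2 hb
        have h2 := moved_succ hσ hb'
        rw [h _ _ hb'] at h2
        have h3 : ρ i.castSucc b = a := congrArg Prod.snd hab
        simp only [h3] at h2
        exact h2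
  ext1 ⟨j, a⟩
  by_cases ha : moved σ j a
  · rw [h j a ha, h' j a ((key j a).1 ha)]
  · have ha' : ¬ moved σ' j a := fun hc => ha ((key j a).2 hc)
    unfold moved at ha ha'
    rw [not_not] at ha ha'
    rw [ha, ha']

lemma card_many (M : Fin k → Fin k → Prop) :
    Nat.card {σ : Perm (Fin (n + 2) × Fin k) //
      (∀ v, σ v = v ∨ arc n k M v (σ v)) ∧ mcard σ 0 + 2 ≤ k} * 2 ^ (n + 2) ≤
      2 ^ k * (k.factorial) ^ (n + 2) := by
  classical
  have hd : ∀ σ : {σ : Perm (Fin (n + 2) × Fin k) //
      (∀ v, σ v = v ∨ arc n k M v (σ v)) ∧ mcard σ 0 + 2 ≤ k},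
      ∃ (π : Fin (n + 2) → Perm (Fin k)) (x y : Fin (n + 2) → Fin k),
      (∀ j, x j ≠ y j ∧ ¬ moved σ.1 j (x j) ∧ ¬ moved σ.1 j (y j)) ∧
      (∀ j a, moved σ.1 j a → σ.1 (j, a) = (j + 1, π j a)) :=
    fun σ => exists_data σ.2.1 σ.2.2
  choose π x y hxy hπ using hd
  let F : {σ : Perm (Fin (n + 2) × Fin k) //
      (∀ v, σ v = v ∨ arc n k M v (σ v)) ∧ mcard σ 0 + 2 ≤ k} × (Fin (n + 2) → Bool) →
      (Fin k → Bool) × (Fin (n + 2) → Perm (Fin k)) :=
    fun t => (fun a => decide (moved t.1.1 0 a),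
      fun j => if t.2 j then (swap (x t.1 j) (y t.1 j)).trans (π t.1 j) else π t.1 j)
  have hF1 : ∀ t j a, moved t.1.1 j a → t.1.1 (j, a) = (j + 1, (F t).2 j a) := by
    intro t j a ha
    have h1 : a ≠ x t.1 j := by
      rintro rfl
      exact (hxy t.1 j).2.1 ha
    have h2 : a ≠ y t.1 j := by
      rintro rfl
      exact (hxy t.1 j).2.2 ha
    simp only [F]
    split_ifs
    · rw [Equiv.trans_apply, swap_apply_of_ne_of_ne h1 h2]
      exact hπ t.1 j a ha
    · exact hπ t.1 j a ha
  have hF : Function.Injective F := by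
    rintro ⟨σ, b⟩ ⟨σ', b'⟩ h
    have h1 : σ.1 = σ'.1 := by
      refine eq_of_moved_zero σ.2.1 σ'.2.1 (hF1 (σ, b)) (ρ := (F (σ, b)).2) ?_ ?_
      · rw [h]; exact hF1 (σ', b')
      · intro a
        have h2 := congrFun (congrArg Prod.fst h) a
        simpa [F] using h2
    have h2 : σ = σ' := Subtype.ext h1
    subst h2
    congr 1
    funext j
    have h3 := congrFun (congrArg Prod.snd h) j
    simp only [F] at h3
    have h4 : x σ j ≠ y σ j := (hxy σ j).1
    cases hb : b j <;> cases hb' : b' j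
    · rfl
    · rw [hb, hb'] at h3
      simp only [Bool.false_eq_true, if_false, if_true] at h3
      have h5 := DFunLike.congr_fun h3 (x σ j)
      rw [Equiv.trans_apply, swap_apply_left] at h5
      exact absurd ((π σ j).injective h5) h4
    · rw [hb, hb'] at h3
      simp only [Bool.false_eq_true, if_false, if_true] at h3
      have h5 := DFunLike.congr_fun h3 (x σ j)
      rw [Equiv.trans_apply, swap_apply_left] at h5
      exact absurd ((π σ j).injective h5).symm h4
    · rfl
  have h := Nat.card_le_card_of_injective F hF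
  rw [Nat.card_prod, Nat.card_prod] at h
  simpa [Nat.card_eq_fintype_card, Fintype.card_perm] using h

/-! ### The total count -/

lemma mcard_le (σ : Perm (Fin (n + 2) × Fin k)) (j : Fin (n + 2)) : mcard σ j ≤ k := by
  classical
  unfold mcard
  rw [Nat.card_eq_fintype_card]
  simpa using Fintype.card_subtype_le (fun a => moved σ j a)

lemma der_iff {σ : Perm (Fin (n + 2) × Fin k)} :
    (∀ v, arc n k M v (σ v)) ↔ ((∀ v, σ v = v ∨ arc n k M v (σ v)) ∧ mcard σ 0 = k) := by
  classical
  constructor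
  · intro h
    refine ⟨fun v => Or.inr (h v), ?_⟩
    unfold mcard
    have hm : ∀ a, moved σ 0 a := by
      intro a h2
      have := h (0, a)
      rw [h2] at this
      exact arc_loopless _ this
    rw [Nat.card_eq_fintype_card, Fintype.card_subtype, Finset.filter_true_of_mem (by simpa using hm)]
    simp
  · rintro ⟨h, hk⟩ ⟨j, a⟩
    have h1 : mcard σ j = k := by rw [mcard_eq h j]; exact hk
    have h2 : moved σ j a := by
      unfold mcard at h1
      rw [Nat.card_eq_fintype_card, Fintype.card_subtype] at h1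
      have h3 : Finset.univ.filter (fun a => moved σ j a) = Finset.univ := by
        rw [← Finset.card_eq_iff_eq_univ]
        simpa using h1
      have h4 : a ∈ Finset.univ.filter (fun a => moved σ j a) := by
        rw [h3]; exact Finset.mem_univ a
      simpa using h4
    rcases h (j, a) with h3 | h3
    · exact absurd h3 h2
    · exact h3

lemma perm_count (M : Fin k → Fin k → Prop) :
    permCount (arc n k M) = derCount (arc n k M) + Nat.card (OneData n k M) +
      Nat.card {σ : Perm (Fin (n + 2) × Fin k) //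
      (∀ v, σ v = v ∨ arc n k M v (σ v)) ∧ mcard σ 0 + 2 ≤ k} := by
  classical
  rw [← card_one]
  unfold permCount derCount
  simp only [Nat.card_eq_fintype_card, Fintype.card_subtype, der_iff]
  rw [← Finset.card_union_of_disjoint, ← Finset.card_union_of_disjoint]
  · congr 1
    ext σ
    simp only [Finset.mem_filter, Finset.mem_univ, true_and, Finset.mem_union]
    have := mcard_le σ 0
    constructor
    · intro h
      by_cases h1 : mcard σ 0 = k
      · exact Or.inl (Or.inl ⟨h, h1⟩)
      · by_cases h2 : mcard σ 0 + 1 = k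
        · exact Or.inl (Or.inr ⟨h, h2⟩)
        · exact Or.inr ⟨h, by omega⟩
    · rintro ((h | h) | h) <;> exact h.1
  · rw [Finset.disjoint_left]
    intro σ h1 h2
    simp only [Finset.mem_filter, Finset.mem_univ, true_and, Finset.mem_union] at h1 h2
    rcases h1 with h1 | h1 <;> omega
  · rw [Finset.disjoint_left]
    intro σ h1 h2
    simp only [Finset.mem_filter, Finset.mem_univ, true_and] at h1 h2
    omega

end Construction

/-! ### The special level -/

section Special

variable {k h : ℕ} {X : Finset (Fin k × Fin k)}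

/-- identity plus the arcs in `X` -/
def spec (X : Finset (Fin k × Fin k)) (a b : Fin k) : Prop := a = b ∨ (a, b) ∈ X

lemma spec_aux (hX : ∀ e ∈ X, e.1.val < h ∧ h ≤ e.2.val) {π : Perm (Fin k)} {x : Fin k}
    (hπ : ∀ a, a ≠ x → spec X a (π a)) {a : Fin k} (ha : a ≠ x) :
    π a = a ∨ (π a = x ∧ (a, x) ∈ X) := by
  rcases hπ a ha with h1 | h1
  · exact Or.inl h1.symm
  · right
    have h2 := hX _ h1
    simp only at h2
    have h3 : π a = x := by
      by_contra hne
      rcases hπ (π a) hne with h4 | h4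
      · have h5 := π.injective h4
        rw [← h5] at h2
        omega
      · have h5 := hX _ h4
        simp only at h5
        omega
    rw [h3] at h1
    exact ⟨h3, h1⟩

lemma spec_one (hX : ∀ e ∈ X, e.1.val < h ∧ h ≤ e.2.val) (π : Perm (Fin k)) :
    (∀ a, spec X a (π a)) ↔ π = 1 := by
  constructor
  · intro hπ
    ext1 a
    rcases hπ a with h1 | h1
    · exact h1.symm
    · exfalso
      have h2 := hX _ h1
      simp only at h2
      rcases hπ (π a) with h4 | h4
      · have h5 := π.injective h4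
        rw [← h5] at h2
        omega
      · have h5 := hX _ h4
        simp only at h5
        omega
  · rintro rfl a
    exact Or.inl rfl

lemma minor_spec (hX : ∀ e ∈ X, e.1.val < h ∧ h ≤ e.2.val) (x y : Fin k) :
    minor (spec X) x y = (if x = y then 1 else 0) + (if (y, x) ∈ X then 1 else 0) := by
  classical
  unfold minor
  by_cases hxy : x = y
  · subst hxy
    have hn : (x, x) ∉ X := by
      intro hc
      have := hX _ hc
      simp only at this
      omega
    rw [if_pos rfl, if_neg hn, Nat.card_eq_one_iff_unique]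
    refine ⟨⟨?_⟩, ⟨1, by simp, fun a _ => Or.inl rfl⟩⟩
    have key : ∀ π : {π : Perm (Fin k) // π x = x ∧ ∀ a, a ≠ x → spec X a (π a)}, π.1 = 1 := by
      rintro ⟨π, hπ1, hπ2⟩
      ext1 a
      by_cases ha : a = x
      · subst ha; exact hπ1
      · rcases spec_aux hX hπ2 ha with h1 | h1
        · exact h1
        · exact absurd (π.injective (h1.1.trans hπ1.symm)) ha
    intro π ρ
    exact Subtype.ext ((key π).trans (key ρ).symm)
  · rw [if_neg hxy]
    have key : ∀ π : {π : Perm (Fin k) // π x = y ∧ ∀ a, a ≠ x → spec X a (π a)},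
        π.1 = swap x y ∧ (y, x) ∈ X := by
      rintro ⟨π, hπ1, hπ2⟩
      have hy : π y = x ∧ (y, x) ∈ X := by
        rcases spec_aux hX hπ2 (Ne.symm hxy) with h1 | h1
        · exact absurd (π.injective (hπ1.trans h1.symm)) hxy
        · exact h1
      refine ⟨?_, hy.2⟩
      ext1 a
      by_cases ha : a = x
      · subst ha
        rw [swap_apply_left]; exact hπ1
      · by_cases hay : a = y
        · subst hay
          rw [swap_apply_right]; exact hy.1
        · rw [swap_apply_of_ne_of_ne ha hay]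
          rcases spec_aux hX hπ2 ha with h1 | h1
          · exact h1
          · exact absurd (π.injective (h1.1.trans hy.1.symm)) hay
    by_cases hyx : (y, x) ∈ X
    · rw [if_pos hyx, zero_add, Nat.card_eq_one_iff_unique]
      refine ⟨⟨fun π ρ => Subtype.ext ((key π).1.trans (key ρ).1.symm)⟩,
        ⟨swap x y, by simp, fun a ha => ?_⟩⟩
      by_cases hay : a = y
      · subst hay
        rw [swap_apply_right]
        exact Or.inr hyx
      · rw [swap_apply_of_ne_of_ne ha hay]
        exact Or.inl rfl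
    · rw [if_neg hyx, zero_add, Nat.card_eq_zero]
      left
      exact ⟨fun π => hyx (key π).2⟩

lemma sum_minor_spec (hX : ∀ e ∈ X, e.1.val < h ∧ h ≤ e.2.val) :
    ∑ x, ∑ y, minor (spec X) x y = k + X.card := by
  classical
  simp only [minor_spec hX, Finset.sum_add_distrib]
  congr 1
  · simp
  · rw [Finset.sum_comm]
    have : ∑ y : Fin k, ∑ x : Fin k, (if (y, x) ∈ X then 1 else 0) =
        ∑ e : Fin k × Fin k, (if e ∈ X then 1 else 0) := by
      rw [Fintype.sum_prod_type]
    rw [this]
    simp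

end Special

lemma exists_X (k h N : ℕ) (hk : k = 2 * h) (hN : N ≤ h * h) :
    ∃ X : Finset (Fin k × Fin k), X.card = N ∧ ∀ e ∈ X, e.1.val < h ∧ h ≤ e.2.val := by
  classical
  subst hk
  let f : Fin h × Fin h ↪ Fin (2 * h) × Fin (2 * h) :=
    ⟨fun t => (⟨t.1.val, by omega⟩, ⟨h + t.2.val, by omega⟩), by
      rintro ⟨⟨a, ha⟩, ⟨b, hb⟩⟩ ⟨⟨c, hc⟩, ⟨d, hd⟩⟩ he
      simp only [Prod.mk.injEq, Fin.mk.injEq] at he
      ext
      · exact he.1
      · simp only; omega⟩
  have h1 : N ≤ (Finset.univ.map f).card := by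
    simpa using hN
  obtain ⟨X, hX, hc⟩ := Finset.exists_subset_card_eq h1
  refine ⟨X, hc, fun e he => ?_⟩
  have h2 := hX he
  rw [Finset.mem_map] at h2
  obtain ⟨t, -, rfl⟩ := h2
  exact ⟨t.1.isLt, Nat.le_add_right _ _⟩

/-! ### The limit of the ratios -/

lemma ratio_bounds (n k h N : ℕ) (hk : k = 2 * h) (hh : 0 < h) (hN : N ≤ h * h) :
    ∃ r ∈ ratioSet, ∃ t : ℝ, 0 ≤ t ∧ t ≤ (2 ^ k * k.factorial : ℝ) / 2 ^ (n + 2) ∧
      r = 1 / (2 + (N : ℝ) / k + t) := by
  obtain ⟨X, hXc, hX⟩ := exists_X k h N hk hN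
  have hk0 : 0 < k := by omega
  set E := arc n k (spec X) with hE
  have hd : derCount E = (k.factorial) ^ (n + 1) := der_count_eq (spec_one hX)
  have h1 := card_oneData (n := n) (spec X)
  rw [sum_minor_spec hX, hXc] at h1
  have hp := perm_count (n := n) (spec X)
  rw [← hE, hd, h1] at hp
  have h2 := card_many (n := n) (spec X)
  set c := Nat.card {σ : Perm (Fin (n + 2) × Fin k) //
      (∀ v, σ v = v ∨ arc n k (spec X) v (σ v)) ∧ mcard σ 0 + 2 ≤ k} with hc
  have hf : k * (k - 1).factorial = k.factorial := Nat.mul_factorial_pred (by omega)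
  have hfpos : (0 : ℝ) < (k.factorial : ℝ) := by exact_mod_cast k.factorial_pos
  have hkpos : (0 : ℝ) < (k : ℝ) := by exact_mod_cast hk0
  refine ⟨(derCount E : ℝ) / (permCount E : ℝ), ⟨Fin (n + 2) × Fin k, inferInstance,
    ⟨(0, ⟨0, hk0⟩)⟩, E, fun v => arc_loopless v, rfl⟩, (c : ℝ) / (k.factorial : ℝ) ^ (n + 1),
    by positivity, ?_, ?_⟩
  · rw [div_le_div_iff₀ (by positivity) (by positivity)]
    have h3 : (c : ℝ) * 2 ^ (n + 2) ≤ 2 ^ k * (k.factorial : ℝ) ^ (n + 2) := by exact_mod_cast h2
    calc (c : ℝ) * 2 ^ (n + 2) ≤ 2 ^ k * (k.factorial : ℝ) ^ (n + 2) := h3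
      _ = 2 ^ k * (k.factorial : ℝ) * (k.factorial : ℝ) ^ (n + 1) := by ring
  · rw [hp, hd]
    push_cast
    have h4 : ((k : ℝ) ^ n * ((k : ℝ) + N) * ((k - 1).factorial : ℝ) ^ (n + 1)) * k =
        ((k : ℝ) + N) * (k.factorial : ℝ) ^ (n + 1) := by
      rw [← hf]
      push_cast
      ring
    have h5 : ((k : ℝ) ^ n * ((k : ℝ) + N) * ((k - 1).factorial : ℝ) ^ (n + 1)) =
        (1 + (N : ℝ) / k) * (k.factorial : ℝ) ^ (n + 1) := by
      have h7 : (1 + (N : ℝ) / k) = ((k : ℝ) + N) / k := by
        rw [add_div, div_self hkpos.ne']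
      rw [h7, div_mul_eq_mul_div, eq_div_iff hkpos.ne']
      exact h4
    rw [h5]
    have h6 : (0 : ℝ) < (k.factorial : ℝ) ^ (n + 1) := by positivity
    field_simp
    ring

lemma mem_closure_rat (a m : ℕ) (hm : 0 < m) :
    (1 / (2 + (a : ℝ) / m)) ∈ closure ratioSet := by
  -- scale so that `N ≤ h^2`
  set T := 2 * a + 1 with hT
  set h := m * T with hh
  have hh0 : 0 < h := by positivity
  have hN : 2 * a * T ≤ h * h := by
    have h1 : 2 * a * T ≤ T * T := Nat.mul_le_mul_right _ (by omega)
    have h2 : T * T ≤ h * h := by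
      have : T ≤ h := by
        rw [hh]; exact Nat.le_mul_of_pos_left _ hm
      exact Nat.mul_le_mul this this
    exact h1.trans h2
  have hq : ((2 * a * T : ℕ) : ℝ) / ((2 * h : ℕ) : ℝ) = (a : ℝ) / m := by
    rw [hh]
    push_cast
    have h1 : (0 : ℝ) < (m : ℝ) := by exact_mod_cast hm
    have h2 : (0 : ℝ) < (T : ℝ) := by
      rw [hT]; positivity
    field_simp
  choose r hr t ht0 ht hrt using fun n => ratio_bounds n (2 * h) h (2 * a * T) rfl hh0 hN
  rw [hq] at hrt
  apply mem_closure_of_tendsto (f := r) (b := Filter.atTop)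
  · have htl : Filter.Tendsto t Filter.atTop (nhds 0) := by
      refine squeeze_zero ht0 ht ?_
      have h1 : Filter.Tendsto (fun n : ℕ => (2 : ℝ) ^ (n + 2)) Filter.atTop Filter.atTop := by
        exact (tendsto_pow_atTop_atTop_of_one_lt (by norm_num : (1 : ℝ) < 2)).comp
          (Filter.tendsto_add_atTop_nat 2)
      exact Filter.Tendsto.div_atTop tendsto_const_nhds h1
    have h2 : Filter.Tendsto (fun n => 1 / (2 + (a : ℝ) / m + t n)) Filter.atTop
        (nhds (1 / (2 + (a : ℝ) / m + 0))) := by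
      refine Filter.Tendsto.div tendsto_const_nhds (tendsto_const_nhds.add htl) ?_
      positivity
    rw [add_zero] at h2
    exact h2.congr (fun n => (hrt n).symm)
  · exact Filter.Eventually.of_forall hr

/-- The set of derangement-to-permutation ratios of finite digraphs is dense in `[0, 1/2]`. -/
theorem result : Set.Icc (0 : ℝ) (1 / 2) ⊆ closure ratioSet := by
  rintro x ⟨hx0, hx1⟩
  rw [← closure_closure, Metric.mem_closure_iff]
  intro ε hε
  rcases hx0.eq_or_lt with h | h
  · obtain ⟨a, ha⟩ := exists_nat_gt (1 / ε)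
    refine ⟨1 / (2 + (a : ℝ) / (1 : ℕ)), mem_closure_rat a 1 one_pos, ?_⟩
    rw [← h, dist_comm, Real.dist_eq, sub_zero, abs_of_pos (by positivity)]
    rw [div_lt_iff₀ (by positivity)]
    rw [div_lt_iff₀ hε] at ha
    push_cast
    rw [div_one]
    nlinarith
  · have hx2 : (2 : ℝ) ≤ 1 / x := by
      rw [le_div_iff₀ h]; linarith
    obtain ⟨q, hq1, hq2⟩ := exists_rat_btwn (show 1 / x - 2 < 1 / x - 2 + ε by linarith)
    have hq0 : 0 < q := by
      have : (0 : ℝ) < q := by linarith
      exact_mod_cast this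
    have hqr : (q : ℝ) = (q.num.toNat : ℝ) / (q.den : ℝ) := by
      have h1 : ((q.num.toNat : ℤ)) = q.num := Int.toNat_of_nonneg (Rat.num_nonneg.2 hq0.le)
      have h2 : (q.num.toNat : ℝ) = ((q.num : ℤ) : ℝ) := by
        calc (q.num.toNat : ℝ) = ((q.num.toNat : ℤ) : ℝ) := (Int.cast_natCast _).symm
          _ = ((q.num : ℤ) : ℝ) := by rw [h1]
      rw [h2]
      exact_mod_cast (Rat.num_div_den q).symm
    refine ⟨1 / (2 + (q.num.toNat : ℝ) / (q.den : ℝ)), mem_closure_rat _ _ q.den_pos, ?_⟩
    rw [← hqr]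
    have hy : 0 < 2 + (q : ℝ) := by
      have : (0 : ℝ) < q := by exact_mod_cast hq0
      linarith
    have h3 : 1 / (2 + (q : ℝ)) < x := by
      rw [div_lt_iff₀ hy]
      have : 1 / x < 2 + q := by linarith
      rw [div_lt_iff₀ h] at this
      linarith
    rw [Real.dist_eq, abs_of_pos (by linarith)]
    rw [sub_lt_iff_lt_add, ← sub_lt_iff_lt_add', lt_div_iff₀ hy]
    have h4 : 2 + (q : ℝ) < 1 / x + ε := by linarith
    by_cases hxe : x - ε ≤ 0
    · have : (x - ε) * (2 + q) ≤ 0 := mul_nonpos_of_nonpos_of_nonneg hxe hy.le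
      linarith
    · have hxe' : 0 < x - ε := by linarith
      have h5 : (x - ε) * (2 + q) < (x - ε) * (1 / x + ε) := mul_lt_mul_of_pos_left h4 hxe'
      have h6 : (x - ε) * (1 / x + ε) ≤ 1 := by
        have h7 : x * (1 / x) = 1 := by field_simp
        have h8 : (x - ε) * (1 / x + ε) = x * (1 / x) + x * ε - ε * (1 / x) - ε * ε := by ring
        rw [h8, h7]
        have h9 : ε * 2 ≤ ε * (1 / x) := mul_le_mul_of_nonneg_left hx2 hε.le
        nlinarith
      linarith

end Pool.Agent.Results.MP_864c98_co.DenseInHalf
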